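import Pool.Agent.Y143.Prod.Defs

/-!
# Sums of Tate twists
-/

namespace Pool.Agent.Y143.Prod

universe v

open Module

variable {q : ℕ} {ι : Type} (P : ι → ProductCohomology.{v} q)

/-- The action of the Frobenius on the sum of the Tate twists `(P i).H (- t i)`. -/
noncomputable def sumFrob (t : ι → ℤ) : Module.End ℂ (∀ i, (P i).H) :=
  LinearMap.pi fun i => ((q : ℂ) ^ t i • (P i).frob) ∘ₗ LinearMap.proj i

/-- The monodromy operator of the sum of the `(P i).H`. -/
def sumN : Module.End ℂ (∀ i, (P i).H) := LinearMap.pi fun i => (P i).N ∘ₗ LinearMap.proj i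

end Pool.Agent.Y143.Prod
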