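import Pool.Agent.Y143.Defs

/-!
# The weight spectral sequence of a product of local systems on a curve over a local field

`O` is a henselian discrete valuation ring with finite residue field with `q` elements, `C` is a
smooth projective curve over the fraction field `K` with a strictly semistable model over `O`,
`j : U → C` an open subset, `f_i : E_i → U` are elliptic curves for `1 ≤ i ≤ r` with semistable
reduction over the model (and unipotent monodromy), and `S` is the tensor product of the sheaves
`Sym^(k_i) R^1 f_(i*)`, of weight `k = ∑ k_i`. We consider `H^1(C_{\bar K}, j_* S)`, with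
coefficients in an algebraic closure of `ℚ_ℓ` identified with `ℂ`. The complex `ψ` of nearby cycles
of `j_* S` is a perverse sheaf; the graded pieces `gr_κ ψ` of its monodromy filtration are the sums
of the intermediate extensions of the local systems `gr_κ S` on the components `C_v` of the special
fibre and of sheaves supported at points (double points and cusps).
-/

namespace Pool.Agent.Y143.Prod

universe v

open Module

/-- A finite-dimensional complex vector space with subspaces `gr κ` (the part of monodromy weight
`κ`), an operator `N` and an operator `frob` (the action of a geometric Frobenius). -/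
structure Column where
  V : Type v
  [addCommGroup : AddCommGroup V]
  [module : Module ℂ V]
  [finite : Module.Finite ℂ V]
  gr : ℤ → Submodule ℂ V
  N : Module.End ℂ V
  frob : Module.End ℂ V

attribute [instance] Column.addCommGroup Column.module Column.finite

/-- `N` has degree `-2` and `N ^ a` is an isomorphism from the part of monodromy weight `a` to the
part of monodromy weight `-a`. -/
structure Column.IsLefschetz (C : Column.{v}) : Prop where
  map : ∀ κ x, x ∈ C.gr κ → C.N x ∈ C.gr (κ - 2)
  inj : ∀ (a : ℕ) x, x ∈ C.gr a → (C.N ^ a) x = 0 → x = 0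
  surj : ∀ (a : ℕ) y, y ∈ C.gr (-a) → ∃ x ∈ C.gr a, (C.N ^ a) x = y

/-- The eigenvalues of the Frobenius on the part of monodromy weight `κ` are Weil numbers of weight
`w + κ`. -/
def Column.IsPure (C : Column.{v}) (q : ℕ) (w : ℤ) : Prop :=
  ∀ κ (α : ℂ) x, x ∈ C.gr κ → x ≠ 0 → C.frob x = α • x → IsWeilNumber q (w + κ) α

/-- `J` is an antilinear map which preserves the monodromy weight and commutes with `N`. -/
structure Column.IsConj (C : Column.{v}) (J : C.V → C.V) : Prop where
  add : ∀ x y, J (x + y) = J x + J y
  smul : ∀ (c : ℂ) x, J (c • x) = (starRingEnd ℂ) c • J x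
  map : ∀ κ x, x ∈ C.gr κ → J x ∈ C.gr κ
  comm : ∀ x, J (C.N x) = C.N (J x)

/-- The weight spectral sequence of `H^1(C_{\bar K}, j_* S)`, where `S` has weight `k`. The terms are
`vert` (the sum over the components `C_v` of `H^0(C_v, gr_κ S)`), `point` (the sum of the parts of
`gr_κ ψ` supported at points) and `pure` (the sum of the `H^1(C_v, gr_κ S)`); the differential `d`
from `H^0(C_v, gr_(κ + 1) S)` to the punctual part of `gr_κ ψ`; the duality pairing `form` of the
punctual parts of `gr_κ ψ` and `gr_(-κ) ψ`; and the conjugations `conjV` and `conjP` (the product of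
the complex conjugation and of the Weil operator). -/
structure WeightPage where
  k : ℕ
  vert : Column.{v}
  point : Column.{v}
  pure : Column.{v}
  d : vert.V →ₗ[ℂ] point.V
  form : point.V →ₗ[ℂ] point.V →ₗ[ℂ] ℂ
  conjV : vert.V → vert.V
  conjP : point.V → point.V

namespace WeightPage

variable (P : WeightPage.{v})

/-- The sum of the punctual and the pure terms. -/
abbrev C : Type v := P.point.V × P.pure.V

/-- The kernel of the differential from the punctual part of `gr_κ ψ` to the sum of the
`H^2(C_v, gr_(κ - 1) S)`. It is the transpose of the differential `d` of monodromy weight `1 - κ`, as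
`H^2(C_v, gr_(κ - 1) S)` is dual to `H^0(C_v, gr_(1 - κ) S)`. -/
def kernel (κ : ℤ) : Submodule ℂ P.point.V where
  carrier := {x | x ∈ P.point.gr κ ∧ ∀ a ∈ P.vert.gr (1 - κ), P.form x (P.d a) = 0}
  add_mem' := fun {x y} hx hy => ⟨add_mem hx.1 hy.1, fun a ha => by
    rw [map_add, LinearMap.add_apply, hx.2 a ha, hy.2 a ha, add_zero]⟩
  zero_mem' := ⟨zero_mem _, fun a _ => by rw [map_zero, LinearMap.zero_apply]⟩
  smul_mem' := fun c x hx => ⟨Submodule.smul_mem _ c hx.1, fun a ha => by
    rw [map_smul, LinearMap.smul_apply, hx.2 a ha, smul_zero]⟩

/-- The cocycles of monodromy weight `κ`. -/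
def cocycles (κ : ℤ) : Submodule ℂ P.C := (P.kernel κ).prod (P.pure.gr κ)

/-- The coboundaries of monodromy weight `κ`. -/
def coboundaries (κ : ℤ) : Submodule ℂ P.C := ((P.vert.gr (κ + 1)).map P.d).prod ⊥

/-- The action of the Frobenius. -/
def frobC : Module.End ℂ P.C := P.point.frob.prodMap P.pure.frob

/-- The action of `N`. -/
def NC : Module.End ℂ P.C := P.point.N.prodMap P.pure.N

/-- The properties of the differential: it is compatible with the gradings, the Frobenius and `N`,
and its composition with the next differential is zero. -/
structure IsComplex : Prop where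
  d_gr : ∀ κ a, a ∈ P.vert.gr κ → P.d a ∈ P.point.gr (κ - 1)
  d_N : ∀ a, P.d (P.vert.N a) = P.point.N (P.d a)
  d_frob : ∀ a, P.d (P.vert.frob a) = P.point.frob (P.d a)
  frob_gr : ∀ κ a, a ∈ P.vert.gr κ → P.vert.frob a ∈ P.vert.gr κ
  d_d : ∀ κ a b, a ∈ P.vert.gr (1 + κ) → b ∈ P.vert.gr (1 - κ) → P.form (P.d a) (P.d b) = 0

/-- Poincare duality for the punctual terms: the pairing of the parts of monodromy weights `κ` and
`-κ` is perfect. -/
structure IsDual : Prop where
  symm : ∀ x y, P.form y x = (-1) ^ (P.k + 1) * P.form x y
  form_N : ∀ x y, P.form (P.point.N x) y = - P.form x (P.point.N y)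
  perfect : ∀ κ (φ : Module.Dual ℂ P.point.V), ∃ x ∈ P.point.gr κ, ∀ y ∈ P.point.gr (-κ),
    P.form x y = φ y

/-- The punctual terms are polarized: the Hermitian form `form (x, N ^ κ (J y))` is positive definite
on the primitive part (the kernel of `N ^ (κ + 1)`) of monodromy weight `κ ≥ 1`, where the
conjugation `J` is compatible with the differential. -/
structure IsPolarized : Prop where
  conjV : P.vert.IsConj P.conjV
  conjP : P.point.IsConj P.conjP
  conj_d : ∀ a, P.conjP (P.d a) = P.d (P.conjV a)
  positive : ∀ (κ : ℕ) x, 1 ≤ κ → x ∈ P.point.gr κ → (P.point.N ^ (κ + 1)) x = 0 → x ≠ 0 →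
    0 < (P.form x ((P.point.N ^ κ) (P.conjP x))).re

/-- The properties of the terms of the weight spectral sequence. -/
structure IsGood (q : ℕ) : Prop where
  vert : P.vert.IsLefschetz
  point : P.point.IsLefschetz
  pure : P.pure.IsLefschetz
  point_weil : P.point.IsPure q (P.k + 1)
  pure_weil : P.pure.IsPure q (P.k + 1)
  isComplex : P.IsComplex
  isDual : P.IsDual
  isPolarized : P.IsPolarized

end WeightPage

/-- The data given by `H^1(C_{\bar K}, j_* S)`: the action `frob` of a geometric Frobenius element,
the logarithm `N` of the monodromy, the weight filtration `W` and the identification `sp` of its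
graded pieces with the terms of the weight spectral sequence (given by its graph). -/
structure ProductData where
  page : WeightPage.{v}
  H : Type v
  [addCommGroup : AddCommGroup H]
  [module : Module ℂ H]
  frob : Module.End ℂ H
  N : Module.End ℂ H
  W : ℤ → Submodule ℂ H
  sp : ℤ → Submodule ℂ (H × page.C)

attribute [instance] ProductData.addCommGroup ProductData.module

/-- The cohomology `H^1(C_{\bar K}, j_* S)` with its weight spectral sequence: the graded piece of
weight `w` is the `E_2`-term of monodromy weight `κ = w - (k + 1)`. -/
structure ProductCohomology (q : ℕ) extends ProductData.{v} where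
  isGood : page.IsGood q
  graded : HasGraded W sp (fun w => page.cocycles (w - (page.k + 1)))
    (fun w => page.coboundaries (w - (page.k + 1)))
  compatible : IsCompatible (Γ := Unit) sp (fun _ => frob) (fun _ _ => page.frobC) N
    (fun _ => page.NC)

/-- The weight `k` of the sheaf `S`. -/
def ProductCohomology.k {q : ℕ} (P : ProductCohomology.{v} q) : ℕ := P.page.k

end Pool.Agent.Y143.Prod
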