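import Pool.Agent.Y143.Prod.Defs

/-!
# Fibre products over log curves

`s` is the log point of a finite field with `q` elements, `C` is a projective SNCL curve over `s`,
`f_i : E_i → C` are log smooth families of elliptic curves (possibly with cusps), and `S` is the tensor
product of the sheaves `Sym^(k_i) R^1 f_(i*)`. The complex of nearby cycles and its monodromy
filtration are those of the log scheme `C`.
-/

namespace Pool.Agent.Y143.Prod

universe v

open Module

/-- A complex vector space with an operator `N` and a filtration `W`. -/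
structure Filtered where
  V : Type v
  [addCommGroup : AddCommGroup V]
  [module : Module ℂ V]
  N : Module.End ℂ V
  W : ℤ → Submodule ℂ V

attribute [instance] Filtered.addCommGroup Filtered.module

/-- The kernel of `d` on the sum of the `H^0(C_v, gr_κ S)`. -/
def WeightPage.sections (P : WeightPage.{v}) (κ : ℤ) : Submodule ℂ P.vert.V :=
  P.vert.gr κ ⊓ LinearMap.ker P.d

/-- The cohomology groups `H^1` and `H^0` of `S` on the log curve `C`: the group `H^1` (with its weight
spectral sequence), and the group `sec = H^0`, whose graded piece of weight `w` is identified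
(by `spSec`) with the kernel of `d` in monodromy weight `κ = w - k`. The Hermitian form `form (x, J x)`
is also positive definite on the primitive punctual classes of monodromy weight `0`. -/
structure LogCohomology (q : ℕ) extends ProductCohomology.{v} q where
  sec : Filtered.{v}
  spSec : ℤ → Submodule ℂ (sec.V × page.vert.V)
  gradedSec : HasGraded sec.W spSec (fun w => page.sections (w - page.k)) (fun _ => ⊥)
  N_spSec : ∀ w x a, (x, a) ∈ spSec w → (sec.N x, page.vert.N a) ∈ spSec (w - 2)
  positive_zero : ∀ x ∈ page.point.gr 0, page.point.N x = 0 → x ≠ 0 →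
    0 < (page.form x (page.conjP x)).re

/-- The group `H^1` with its weight filtration. -/
def LogCohomology.one {q : ℕ} (P : LogCohomology.{v} q) : Filtered.{v} := ⟨P.H, P.N, P.W⟩

/-- `W` is the monodromy filtration of `N` centred at `m`: the map `N ^ e` induces an isomorphism of
`gr^W_(m + e)` with `gr^W_(m - e)` for all `e ≥ 1`. -/
def Filtered.IsMonodromy (X : Filtered.{v}) (m : ℤ) : Prop :=
  IsMonodromyFiltration X.N (fun a => X.W (m + a))

/-- The dual space, with the operator `φ ↦ - φ ∘ N` and the dual filtration. -/
def Filtered.dual (X : Filtered.{v}) : Filtered.{v} where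
  V := Module.Dual ℂ X.V
  N := -X.N.dualMap
  W := fun w => (X.W (-w - 1)).dualAnnihilator

/-- The Tate twist of `X` by `- t` is a contribution to a cohomology group of degree `m`: `X` is the
group `H^1` or `H^0` of some `S` as above (of weight `k`), and `m = k + 1 + 2 t` or `m = k + 2 t`, or
`X` is the dual of `H^0` and `m = - k + 2 t` (as `H^2` is the dual of `H^0`, twisted by `- (k + 1)`). -/
def IsPiece (q : ℕ) (X : Filtered.{v}) (t m : ℤ) : Prop :=
  ∃ P : LogCohomology.{v} q, (X = P.one ∧ P.k + 1 + 2 * t = m) ∨ (X = P.sec ∧ P.k + 2 * t = m) ∨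
    (X = P.sec.dual ∧ -P.k + 2 * t = m)

/-- `Y` is a direct summand of the sum of the Tate twists by `- t i` of the `X i`, with the induced
weight filtration. -/
def Filtered.IsSummandOf (Y : Filtered.{v}) {ι : Type} (X : ι → Filtered.{v}) (t : ι → ℤ) : Prop :=
  ∃ (f : Y.V →ₗ[ℂ] ∀ i, (X i).V) (g : (∀ i, (X i).V) →ₗ[ℂ] Y.V), (∀ x, g (f x) = x) ∧
    (∀ x i, f (Y.N x) i = (X i).N (f x i)) ∧ (∀ y, g (fun i => (X i).N (y i)) = Y.N (g y)) ∧
    ∀ w x, x ∈ Y.W w ↔ ∀ i, f x i ∈ (X i).W (w - 2 * t i)

end Pool.Agent.Y143.Prod
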