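import Pool.Agent.Y143.Prod.Main
import Pool.Agent.Y143.Prod.LogDefs

/-!
# The weight filtration is the monodromy filtration
-/

namespace Pool.Agent.Y143.Prod

universe u v

open Module Pool.Agent.Y143.Par

variable {Ω : Type u} [Field Ω] {V₀ : Type v} [AddCommGroup V₀] [Module Ω V₀]

/-- Direct sums of monodromy filtrations. -/
theorem mon_pi {ι : Type} [Finite ι] (H : ι → Type v)
    [∀ i, AddCommGroup (H i)] [∀ i, Module Ω (H i)] (N' : ∀ i, Module.End Ω (H i))
    (M : ∀ i, ℤ → Submodule Ω (H i)) (hM : ∀ i, IsMonodromyFiltration (N' i) (M i)) :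
    IsMonodromyFiltration (LinearMap.pi fun i => N' i ∘ₗ LinearMap.proj i :
      Module.End Ω (∀ i, H i)) (fun a => Submodule.pi Set.univ fun i => M i a) := by
  classical
  cases nonempty_fintype ι
  have hpow : ∀ (a : ℕ) (x : ∀ i, H i) (i : ι),
      (((LinearMap.pi fun i => N' i ∘ₗ LinearMap.proj i : Module.End Ω (∀ i, H i)) ^ a) x) i =
        (N' i ^ a) (x i) := by
    intro a
    induction a with
    | zero => intro x i; rfl
    | succ a ih =>
      intro x i
      rw [pow_succ', Module.End.mul_apply, pow_succ', Module.End.mul_apply, ← ih]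
      rfl
  refine ⟨?_, ?_, ?_, ?_, ?_, ?_⟩
  · intro a b hab x hx i hi
    exact (hM i).mono hab (hx i hi)
  · choose b hb using fun i => (hM i).bot
    obtain ⟨c, hc⟩ := (Set.finite_range b).bddBelow
    refine ⟨c, eq_bot_iff.2 fun x hx => ?_⟩
    rw [Submodule.mem_bot]
    funext i
    have h1 := (hM i).mono (hc ⟨i, rfl⟩) (hx i trivial)
    rw [hb i] at h1
    exact (Submodule.mem_bot _).1 h1
  · choose b hb using fun i => (hM i).top
    obtain ⟨c, hc⟩ := (Set.finite_range b).bddAbove
    refine ⟨c, eq_top_iff.2 fun x _ i _ => ?_⟩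
    apply (hM i).mono (hc ⟨i, rfl⟩)
    rw [hb i]
    trivial
  · intro a x hx i hi
    exact (hM i).map a _ (hx i hi)
  · intro a x hx hN i hi
    have := hN i hi
    rw [hpow] at this
    exact (hM i).inj a _ (hx i hi) this
  · intro a y hy
    choose x hx hxy using fun i => (hM i).surj a (y i) (hy i trivial)
    refine ⟨x, fun i _ => hx i, fun i _ => ?_⟩
    rw [Pi.sub_apply, hpow]
    exact hxy i

/-- Direct summands. -/
theorem mon_summand {V V' : Type v} [AddCommGroup V] [Module Ω V] [AddCommGroup V']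
    [Module Ω V'] {N : Module.End Ω V} {N' : Module.End Ω V'} (f : V →ₗ[Ω] V')
    (g : V' →ₗ[Ω] V) (hgf : ∀ x, g (f x) = x) (hfN : ∀ x, f (N x) = N' (f x))
    (hgN : ∀ y, g (N' y) = N (g y)) {M : ℤ → Submodule Ω V'} (hM : IsMonodromyFiltration N' M) :
    IsMonodromyFiltration N (fun a => (M a).comap f) := by
  have hpow : ∀ (a : ℕ) (x : V), f ((N ^ a) x) = (N' ^ a) (f x) := by
    intro a
    induction a with
    | zero => intro x; rfl
    | succ a ih => intro x; rw [pow_succ', Module.End.mul_apply, pow_succ', Module.End.mul_apply,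
        hfN, ih]
  have hfun : ∀ (s : ℤ) (x : V'), x ∈ M s → f (g x) ∈ M s := fun s x hx =>
    IsMonodromyFiltrationOn.functorial hM.on hM.on (f ∘ₗ g) (fun _ _ => trivial) one_ne_zero
      (fun y _ => by
        rw [one_smul, LinearMap.comp_apply, LinearMap.comp_apply, hgN, hfN]) s hx
  have hinjf : ∀ x, f x = 0 → x = 0 := fun x hx => by rw [← hgf x, hx, map_zero]
  refine ⟨?_, ?_, ?_, ?_, ?_, ?_⟩
  · intro a b hab
    exact Submodule.comap_mono (hM.mono hab)
  · obtain ⟨b, hb⟩ := hM.bot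
    refine ⟨b, eq_bot_iff.2 fun x hx => ?_⟩
    rw [Submodule.mem_comap, hb, Submodule.mem_bot] at hx
    exact (Submodule.mem_bot _).2 (hinjf x hx)
  · obtain ⟨b, hb⟩ := hM.top
    refine ⟨b, eq_top_iff.2 fun x _ => ?_⟩
    rw [Submodule.mem_comap, hb]
    trivial
  · intro a x hx
    rw [Submodule.mem_comap] at hx ⊢
    rw [hfN]
    exact hM.map a _ hx
  · intro a x hx hNx
    rw [Submodule.mem_comap] at hx hNx ⊢
    rw [hpow] at hNx
    exact hM.inj a _ hx hNx
  · intro a y hy
    obtain ⟨z, hz, hyz⟩ := hM.surj a (f y) hy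
    refine ⟨g z, hfun a z hz, ?_⟩
    have h1 := hfun _ _ hyz
    have hpow' : ∀ (b : ℕ) (x : V'), g ((N' ^ b) x) = (N ^ b) (g x) := by
      intro b
      induction b with
      | zero => intro x; rfl
      | succ b ih => intro x; rw [pow_succ', Module.End.mul_apply, pow_succ',
          Module.End.mul_apply, hgN, ih]
    rw [Submodule.mem_comap]
    rwa [map_sub, hgf, hpow'] at h1

/-- Surjectivity of `N ^ κ` on the sections, from the polarization. -/
theorem sections_surj {q : ℕ} {P : LogCohomology.{v} q} (κ : ℕ) {a : P.page.vert.V}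
    (ha : a ∈ P.page.sections (-(κ : ℤ))) :
    ∃ b ∈ P.page.sections κ, (P.page.vert.N ^ κ) b = a := by
  have h := P.isGood
  obtain ⟨b, hb, hba⟩ := h.vert.surj κ a ha.1
  rcases Nat.eq_zero_or_pos κ with rfl | hκ
  · refine ⟨a, ?_, rfl⟩
    simpa using ha
  obtain ⟨n, rfl⟩ : ∃ n, κ = n + 1 := ⟨κ - 1, by omega⟩
  have hd0 : (P.page.point.N ^ (n + 1)) (P.page.d b) = 0 := by
    rw [← h.isComplex.d_pow, hba]
    exact ha.2
  have hdb : P.page.d b ∈ P.page.point.gr n := by
    have := h.isComplex.d_gr _ _ hb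
    rwa [show ((n + 1 : ℕ) : ℤ) - 1 = n by push_cast; ring] at this
  have hz : P.page.form (P.page.d b) ((P.page.point.N ^ n) (P.page.conjP (P.page.d b))) = 0 := by
    rw [h.isPolarized.conj_d, ← h.isComplex.d_pow]
    refine h.isComplex.d_d n _ _ ?_ ?_
    · rwa [show (1 : ℤ) + n = ((n + 1 : ℕ) : ℤ) by push_cast; ring]
    · have := h.vert.pow_map n (h.isPolarized.conjV.map _ _ hb)
      rwa [show ((n + 1 : ℕ) : ℤ) - 2 * (n : ℤ) = 1 - n by push_cast; ring] at this
  have hd : P.page.d b = 0 := by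
    by_contra hne
    rcases Nat.eq_zero_or_pos n with rfl | hn
    · have hpos := P.positive_zero (P.page.d b) (by simpa using hdb) (by simpa using hd0) hne
      rw [pow_zero, Module.End.one_apply] at hz
      rw [hz, Complex.zero_re] at hpos
      exact lt_irrefl _ hpos
    · have hpos := h.isPolarized.positive n _ hn hdb hd0 hne
      rw [hz, Complex.zero_re] at hpos
      exact lt_irrefl _ hpos
  exact ⟨b, ⟨hb, hd⟩, hba⟩

lemma itN_const (T : Module.End Ω V₀) (κ : ℤ) (j : ℕ) : itN (fun _ => T) κ j = T ^ j := by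
  induction j with
  | zero => rfl
  | succ j ih => rw [itN, ih, pow_succ']

/-- The weight filtration of `H^0` is the monodromy filtration. -/
theorem LogCohomology.sec_isMonodromy {q : ℕ} (P : LogCohomology.{v} q) :
    P.sec.IsMonodromy P.k := by
  refine isMonodromyFiltration_of_page (Z := P.page.sections) (B := fun _ => ⊥)
    (N' := fun _ => P.page.vert.N) P.gradedSec P.N_spSec ?_ ?_
  · intro a _ x hx hN
    rw [itN_const] at hN
    exact (Submodule.mem_bot _).2 (P.isGood.vert.inj a x hx.1 ((Submodule.mem_bot _).1 hN))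
  · intro a _ y hy
    obtain ⟨b, hb, hby⟩ := sections_surj a hy
    refine ⟨b, hb, ?_⟩
    rw [itN_const, hby, sub_self]
    exact zero_mem _

theorem LogCohomology.one_isMonodromy {q : ℕ} (P : LogCohomology.{v} q) :
    P.one.IsMonodromy (P.k + 1) := P.toProductCohomology.isMonodromyFiltration

/-- The dual filtration is the monodromy filtration of the dual operator. -/
theorem mon_dual {V : Type v} [AddCommGroup V] [Module Ω V] {N : Module.End Ω V}
    {M : ℤ → Submodule Ω V} (hM : IsMonodromyFiltration N M) :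
    IsMonodromyFiltration (-N.dualMap : Module.End Ω (Module.Dual Ω V))
      (fun a => (M (-a - 1)).dualAnnihilator) := by
  have hpow : ∀ (a : ℕ) (φ : Module.Dual Ω V) (x : V),
      (((-N.dualMap : Module.End Ω (Module.Dual Ω V)) ^ a) φ) x = (-1) ^ a * φ ((N ^ a) x) := by
    intro a
    induction a with
    | zero => intro φ x; simp
    | succ a ih =>
      intro φ x
      rw [pow_succ', Module.End.mul_apply, LinearMap.neg_apply, LinearMap.neg_apply,
        LinearMap.dualMap_apply, ih, pow_succ' (-1 : Ω), pow_succ N, Module.End.mul_apply]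
      ring
  refine ⟨?_, ?_, ?_, ?_, ?_, ?_⟩
  · intro a b hab φ hφ
    rw [Submodule.mem_dualAnnihilator] at hφ ⊢
    exact fun w hw => hφ w (hM.mono (by omega) hw)
  · obtain ⟨c, hc⟩ := hM.top
    refine ⟨-c - 1, ?_⟩
    show (M (-(-c - 1) - 1)).dualAnnihilator = ⊥
    rw [show -(-c - 1) - 1 = c by ring, hc, Submodule.dualAnnihilator_top]
  · obtain ⟨c, hc⟩ := hM.bot
    refine ⟨-c - 1, ?_⟩
    show (M (-(-c - 1) - 1)).dualAnnihilator = ⊤
    rw [show -(-c - 1) - 1 = c by ring, hc, Submodule.dualAnnihilator_bot]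
  · intro a φ hφ
    rw [Submodule.mem_dualAnnihilator] at hφ ⊢
    intro w hw
    rw [LinearMap.neg_apply, LinearMap.neg_apply, LinearMap.dualMap_apply, neg_eq_zero]
    apply hφ
    have := hM.map _ _ hw
    rwa [show -(a - 2) - 1 - 2 = -a - 1 by ring] at this
  · intro a φ hφ hN
    rw [Submodule.mem_dualAnnihilator] at hφ hN ⊢
    intro y hy
    rw [show -((a : ℤ) - 1) - 1 = -(a : ℤ) by ring] at hy
    obtain ⟨x, hx, hxy⟩ := hM.surj a y hy
    have h1 := hφ _ hxy
    have h2 := hN x (by rwa [show -(-(a : ℤ) - 1) - 1 = (a : ℤ) by ring])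
    rw [hpow] at h2
    have h3 : φ ((N ^ a) x) = 0 :=
      (mul_eq_zero.1 h2).resolve_left (pow_ne_zero _ (neg_ne_zero.2 one_ne_zero))
    rwa [map_sub, h3, sub_zero] at h1
  · intro a ψ hψ
    rw [Submodule.mem_dualAnnihilator] at hψ
    let u : M a →ₗ[Ω] (V ⧸ M (-(a : ℤ) - 1)) :=
      (M (-(a : ℤ) - 1)).mkQ ∘ₗ (N ^ a) ∘ₗ (M a).subtype
    have hmem : ψ ∘ₗ (M a).subtype ∈ (LinearMap.ker u).dualAnnihilator := by
      rw [Submodule.mem_dualAnnihilator]
      intro x hx
      have h1 : (N ^ a) (x : V) ∈ M (-(a : ℤ) - 1) := by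
        have : (M (-(a : ℤ) - 1)).mkQ ((N ^ a) (x : V)) = 0 := hx
        rwa [Submodule.mkQ_apply, Submodule.Quotient.mk_eq_zero] at this
      have h2 := hM.inj a _ x.2 h1
      exact hψ _ (by rwa [show -(-(a : ℤ)) - 1 = (a : ℤ) - 1 by ring])
    rw [← LinearMap.range_dualMap_eq_dualAnnihilator_ker] at hmem
    obtain ⟨φ, hφ⟩ := hmem
    refine ⟨(-1 : Ω) ^ a • (φ ∘ₗ (M (-(a : ℤ) - 1)).mkQ), ?_, ?_⟩
    · rw [Submodule.mem_dualAnnihilator]
      intro w hw
      rw [LinearMap.smul_apply, LinearMap.comp_apply, Submodule.mkQ_apply,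
        (Submodule.Quotient.mk_eq_zero _).2 hw, map_zero, smul_zero]
    · rw [Submodule.mem_dualAnnihilator]
      intro x hx
      rw [show -(-(a : ℤ) - 1) - 1 = (a : ℤ) by ring] at hx
      have h1 : φ (u ⟨x, hx⟩) = ψ x := LinearMap.congr_fun hφ ⟨x, hx⟩
      have h2 : φ (u ⟨x, hx⟩) = φ ((M (-(a : ℤ) - 1)).mkQ ((N ^ a) x)) := rfl
      rw [LinearMap.sub_apply, hpow, LinearMap.smul_apply, LinearMap.comp_apply, ← h2, h1,
        smul_eq_mul, ← mul_assoc, ← mul_pow, neg_mul_neg, one_mul, one_pow, one_mul, sub_self]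

theorem Filtered.IsMonodromy.dual {X : Filtered.{v}} {m : ℤ} (h : X.IsMonodromy m) :
    X.dual.IsMonodromy (-m) := by
  have h1 := mon_dual h
  have h2 : (fun a => X.dual.W (-m + a)) = fun a => (X.W (m + (-a - 1))).dualAnnihilator := by
    funext a
    show (X.W (-(-m + a) - 1)).dualAnnihilator = _
    rw [show -(-m + a) - 1 = m + (-a - 1) by ring]
  rw [Filtered.IsMonodromy, h2]
  exact h1

theorem IsPiece.isMonodromy {q : ℕ} {X : Filtered.{v}} {t m : ℤ} (h : IsPiece q X t m) :
    X.IsMonodromy (m - 2 * t) := by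
  obtain ⟨P, ⟨rfl, hm⟩ | ⟨rfl, hm⟩ | ⟨rfl, hm⟩⟩ := h
  · have := P.one_isMonodromy
    rwa [show (P.k : ℤ) + 1 = m - 2 * t by omega] at this
  · have := P.sec_isMonodromy
    rwa [show (P.k : ℤ) = m - 2 * t by omega] at this
  · have := P.sec_isMonodromy.dual
    rwa [show -(P.k : ℤ) = m - 2 * t by omega] at this

/-- The weight filtration of a direct summand is the monodromy filtration. -/
theorem Filtered.IsSummandOf.isMonodromy {ι : Type} [Finite ι] {Y : Filtered.{v}}
    {X : ι → Filtered.{v}} {t : ι → ℤ} {m : ℤ} (hX : ∀ i, (X i).IsMonodromy (m - 2 * t i))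
    (hS : Y.IsSummandOf X t) : Y.IsMonodromy m := by
  obtain ⟨f, g, hgf, hfN, hgN, hW⟩ := hS
  have h1 := mon_pi (fun i => (X i).V) (fun i => (X i).N)
    (fun i a => (X i).W (m - 2 * t i + a)) hX
  have h2 := mon_summand f g hgf (fun x => funext fun i => hfN x i) hgN h1
  have h3 : (fun a => Y.W (m + a)) = fun a => ((Submodule.pi Set.univ fun i =>
      (X i).W (m - 2 * t i + a)).comap f) := by
    funext a
    ext x
    rw [hW, Submodule.mem_comap, Submodule.mem_pi]
    constructor
    · intro h i _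
      have := h i
      rwa [show m + a - 2 * t i = m - 2 * t i + a by ring] at this
    · intro h i
      have := h i trivial
      rwa [show m + a - 2 * t i = m - 2 * t i + a by ring]
  rw [Filtered.IsMonodromy, h3]
  exact h2

end Pool.Agent.Y143.Prod
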