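import Pool.Agent.Y143.Prod.Defs
import Pool.Agent.Y143.Par.General
import Pool.Agent.Y143.Par.Sum
import Pool.Agent.Y143.Par.MonPage

/-!
# The cohomology of a product of local systems is mw pure
-/

namespace Pool.Agent.Y143.Prod

universe v

open Module Pool.Agent.Y143.Par

namespace Column

variable {C : Column.{v}}

lemma IsLefschetz.pow_map (h : C.IsLefschetz) (j : ℕ) {κ : ℤ} {x : C.V} (hx : x ∈ C.gr κ) :
    (C.N ^ j) x ∈ C.gr (κ - 2 * j) := by
  induction j with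
  | zero => simpa using hx
  | succ j ih =>
    have h1 := h.map _ _ ih
    rw [pow_succ', Module.End.mul_apply]
    rw [show κ - 2 * ((j + 1 : ℕ) : ℤ) = κ - 2 * (j : ℤ) - 2 by push_cast; ring]
    exact h1

/-- The Lefschetz decomposition. -/
lemma IsLefschetz.exists_prim (h : C.IsLefschetz) (κ : ℕ) {x : C.V} (hx : x ∈ C.gr κ) :
    ∃ y ∈ C.gr (κ + 2), x - C.N y ∈ C.gr κ ∧ (C.N ^ (κ + 1)) (x - C.N y) = 0 := by
  have h1 : (C.N ^ (κ + 1)) x ∈ C.gr (-((κ + 2 : ℕ) : ℤ)) := by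
    have := h.pow_map (κ + 1) hx
    rwa [show (κ : ℤ) - 2 * ((κ + 1 : ℕ) : ℤ) = -((κ + 2 : ℕ) : ℤ) by push_cast; ring] at this
  obtain ⟨y, hy, hyx⟩ := h.surj (κ + 2) _ h1
  have hy' : y ∈ C.gr ((κ : ℤ) + 2) := by
    rwa [show ((κ + 2 : ℕ) : ℤ) = (κ : ℤ) + 2 by push_cast; ring] at hy
  refine ⟨y, hy', ?_, ?_⟩
  · apply sub_mem hx
    have := h.map _ _ hy'
    rwa [show (κ : ℤ) + 2 - 2 = κ by ring] at this
  · rw [map_sub, ← hyx, ← Module.End.mul_apply, ← pow_succ, sub_self]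

lemma IsConj.pow (J : C.V → C.V) (h : C.IsConj J) (j : ℕ) (x : C.V) :
    J ((C.N ^ j) x) = (C.N ^ j) (J x) := by
  induction j with
  | zero => rfl
  | succ j ih => rw [pow_succ', Module.End.mul_apply, h.comm, ih, Module.End.mul_apply]

end Column

namespace WeightPage

variable {P : WeightPage.{v}} {q : ℕ}

lemma mem_kernel {κ : ℤ} {x : P.point.V} : x ∈ P.kernel κ ↔
    x ∈ P.point.gr κ ∧ ∀ a ∈ P.vert.gr (1 - κ), P.form x (P.d a) = 0 := Iff.rfl

lemma IsComplex.d_pow (h : P.IsComplex) (j : ℕ) (a : P.vert.V) :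
    P.d ((P.vert.N ^ j) a) = (P.point.N ^ j) (P.d a) := by
  induction j with
  | zero => rfl
  | succ j ih => rw [pow_succ', Module.End.mul_apply, h.d_N, ih, pow_succ', Module.End.mul_apply]

lemma IsDual.form_pow (h : P.IsDual) (j : ℕ) (x y : P.point.V) :
    P.form ((P.point.N ^ j) x) y = (-1) ^ j * P.form x ((P.point.N ^ j) y) := by
  induction j generalizing x y with
  | zero => simp
  | succ j ih =>
    have h1 : (P.point.N ^ j) (P.point.N y) = (P.point.N ^ (j + 1)) y := by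
      rw [pow_succ, Module.End.mul_apply]
    rw [pow_succ' P.point.N j, Module.End.mul_apply, h.form_N, ih, h1, pow_succ' P.point.N j,
      pow_succ' (-1 : ℂ)]
    ring

lemma IsDual.symm_zero (h : P.IsDual) {x y : P.point.V} (hxy : P.form x y = 0) :
    P.form y x = 0 := by rw [h.symm, hxy, mul_zero]

lemma d_mem_kernel (h : P.IsComplex) {κ : ℤ} {a : P.vert.V} (ha : a ∈ P.vert.gr (κ + 1)) :
    P.d a ∈ P.kernel κ := by
  refine ⟨?_, fun b hb => h.d_d κ a b (by rwa [add_comm]) hb⟩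
  have := h.d_gr _ _ ha
  rwa [show κ + 1 - 1 = κ by ring] at this

/-- Injectivity of `N ^ κ` on the `E_2`-term, from the polarization. -/
theorem point_inj (h : P.IsGood q) (κ : ℕ) (hκ : 1 ≤ κ) {x : P.point.V} (hx : x ∈ P.kernel κ)
    {a : P.vert.V} (ha : a ∈ P.vert.gr (-(κ : ℤ) + 1)) (hxa : (P.point.N ^ κ) x = P.d a) :
    ∃ b ∈ P.vert.gr ((κ : ℤ) + 1), P.d b = x := by
  obtain ⟨n, rfl⟩ : ∃ n, κ = n + 1 := ⟨κ - 1, by omega⟩
  have ha' : a ∈ P.vert.gr (-(n : ℤ)) := by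
    rwa [show -((n + 1 : ℕ) : ℤ) + 1 = -(n : ℤ) by push_cast; ring] at ha
  obtain ⟨a₀, ha₀, ha₀a⟩ := h.vert.surj n a ha'
  obtain ⟨b, hb, hp, hp0⟩ := h.vert.exists_prim n ha₀
  set p := a₀ - P.vert.N b with hpdef
  have hb' : b ∈ P.vert.gr (((n + 1 : ℕ) : ℤ) + 1) := by
    rwa [show ((n + 1 : ℕ) : ℤ) + 1 = (n : ℤ) + 2 by push_cast; ring]
  refine ⟨b, hb', ?_⟩
  have hdb := d_mem_kernel h.isComplex hb'
  -- `x - d b` is primitive and in the kernel
  have hx' : x - P.d b ∈ P.kernel ((n + 1 : ℕ) : ℤ) := sub_mem hx hdb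
  have hN : (P.point.N ^ (n + 1)) (x - P.d b) = P.d ((P.vert.N ^ n) p) := by
    rw [map_sub, hxa, ← h.isComplex.d_pow, ← ha₀a, hpdef, map_sub, map_sub, pow_succ,
      Module.End.mul_apply]
  have hN0 : (P.point.N ^ (n + 1 + 1)) (x - P.d b) = 0 := by
    rw [pow_succ', Module.End.mul_apply, hN, ← h.isComplex.d_N, ← Module.End.mul_apply, ← pow_succ',
      hp0, map_zero]
  by_contra hne
  have hne' : x - P.d b ≠ 0 := fun h0 => hne (sub_eq_zero.1 h0).symm
  have hpos := h.isPolarized.positive (n + 1) _ (by omega) hx'.1 hN0 hne'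
  have hz : P.form (x - P.d b) ((P.point.N ^ (n + 1)) (P.conjP (x - P.d b))) = 0 := by
    rw [← h.isPolarized.conjP.pow, hN, h.isPolarized.conj_d]
    apply hx'.2
    apply h.isPolarized.conjV.map
    have := h.vert.pow_map n hp
    rwa [show (n : ℤ) - 2 * (n : ℤ) = 1 - ((n + 1 : ℕ) : ℤ) by push_cast; ring] at this
  rw [hz, Complex.zero_re] at hpos
  exact lt_irrefl _ hpos

/-- The image of `d` is the orthogonal complement of the kernel. -/
lemma mem_image_of_orth (h : P.IsGood q) (κ : ℤ) {w : P.point.V}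
    (hw : ∀ z ∈ P.kernel κ, P.form w z = 0) (hw' : w ∈ P.point.gr (-κ)) :
    ∃ a ∈ P.vert.gr (-κ + 1), P.d a = w := by
  by_contra hne
  have hnot : w ∉ (P.vert.gr (-κ + 1)).map P.d := by
    rintro ⟨a, ha, haw⟩
    exact hne ⟨a, ha, haw⟩
  obtain ⟨φ, hφw, hφ⟩ := Submodule.exists_dual_map_eq_bot_of_notMem hnot inferInstance
  obtain ⟨z, hz, hzφ⟩ := h.isDual.perfect κ φ
  have hzk : z ∈ P.kernel κ := by
    refine ⟨hz, fun a ha => ?_⟩
    rw [show 1 - κ = -κ + 1 by ring] at ha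
    have hda : P.d a ∈ P.point.gr (-κ) := by
      have := h.isComplex.d_gr _ _ ha
      rwa [show -κ + 1 - 1 = -κ by ring] at this
    rw [hzφ _ hda]
    have : φ (P.d a) ∈ ((P.vert.gr (-κ + 1)).map P.d).map φ := ⟨_, ⟨a, ha, rfl⟩, rfl⟩
    rw [hφ] at this
    exact (Submodule.mem_bot _).1 this
  have h1 := h.isDual.symm_zero (hw z hzk)
  rw [hzφ w hw'] at h1
  exact hφw h1

/-- Surjectivity of `N ^ κ` on the `E_2`-term, by duality. -/
theorem point_surj (h : P.IsGood q) (κ : ℕ) (hκ : 1 ≤ κ) {y : P.point.V}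
    (hy : y ∈ P.kernel (-(κ : ℤ))) :
    ∃ x ∈ P.kernel κ, ∃ a ∈ P.vert.gr (-(κ : ℤ) + 1), y - (P.point.N ^ κ) x = P.d a := by
  set X : Submodule ℂ P.point.V := (P.kernel κ).map (P.point.N ^ κ) ⊔
    (P.vert.gr (-(κ : ℤ) + 1)).map P.d with hX
  have hyX : y ∈ X := by
    by_contra hnot
    obtain ⟨φ, hφy, hφ⟩ := Submodule.exists_dual_map_eq_bot_of_notMem hnot inferInstance
    have hφ0 : ∀ z ∈ X, φ z = 0 := fun z hz => by
      have : φ z ∈ X.map φ := ⟨z, hz, rfl⟩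
      rw [hφ] at this
      exact (Submodule.mem_bot _).1 this
    obtain ⟨x, hx, hxφ⟩ := h.isDual.perfect κ φ
    have hxk : x ∈ P.kernel κ := by
      refine ⟨hx, fun a ha => ?_⟩
      rw [show (1 : ℤ) - κ = -(κ : ℤ) + 1 by ring] at ha
      have hda : P.d a ∈ P.point.gr (-(κ : ℤ)) := by
        have := h.isComplex.d_gr _ _ ha
        rwa [show -(κ : ℤ) + 1 - 1 = -(κ : ℤ) by ring] at this
      rw [hxφ _ hda]
      exact hφ0 _ (Submodule.mem_sup_right ⟨a, ha, rfl⟩)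
    have hpow : ∀ z ∈ P.kernel κ, (P.point.N ^ κ) z ∈ P.point.gr (-(κ : ℤ)) := fun z hz => by
      have := h.point.pow_map κ hz.1
      rwa [show (κ : ℤ) - 2 * (κ : ℤ) = -(κ : ℤ) by ring] at this
    obtain ⟨a, ha, hax⟩ := mem_image_of_orth h (κ : ℤ) (w := (P.point.N ^ κ) x)
      (fun z hz => by
        rw [h.isDual.form_pow, hxφ _ (hpow z hz),
          hφ0 _ (Submodule.mem_sup_left ⟨z, hz, rfl⟩), mul_zero]) (hpow x hxk)
    obtain ⟨b, hb, hbx⟩ := point_inj h κ hκ hxk ha hax.symm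
    apply hφy
    rw [← hxφ y hy.1, ← hbx]
    apply h.isDual.symm_zero
    apply hy.2
    rwa [show (1 : ℤ) - -(κ : ℤ) = (κ : ℤ) + 1 by ring]
  obtain ⟨_, ⟨x, hx, rfl⟩, _, ⟨a, ha, rfl⟩, hxy⟩ := Submodule.mem_sup.1 hyX
  exact ⟨x, hx, a, ha, by rw [← hxy]; abel⟩

lemma itN_NC (j : ℕ) (κ : ℤ) (c : P.C) :
    itN (fun _ => P.NC) κ j c = ((P.point.N ^ j) c.1, (P.pure.N ^ j) c.2) := by
  induction j with
  | zero => rfl
  | succ j ih =>
    rw [itN, Module.End.mul_apply, ih, pow_succ', pow_succ', Module.End.mul_apply,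
      Module.End.mul_apply]
    rfl

lemma it_inj (h : P.IsGood q) (a : ℕ) (ha : 1 ≤ a) (c : P.C) (hc : c ∈ P.cocycles a)
    (hN : itN (fun _ => P.NC) a a c ∈ P.coboundaries (-a)) : c ∈ P.coboundaries a := by
  rw [itN_NC] at hN
  obtain ⟨hc1, hc2⟩ := hc
  obtain ⟨⟨b, hb, hbc⟩, hN2⟩ := hN
  obtain ⟨b', hb', hbc'⟩ := point_inj h a ha hc1 hb hbc.symm
  refine ⟨⟨b', hb', hbc'⟩, ?_⟩
  have h1 : (P.pure.N ^ a) c.2 = 0 := (Submodule.mem_bot _).1 hN2
  exact (Submodule.mem_bot _).2 (h.pure.inj a _ hc2 h1)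

lemma it_surj (h : P.IsGood q) (a : ℕ) (ha : 1 ≤ a) (y : P.C) (hy : y ∈ P.cocycles (-a)) :
    ∃ c ∈ P.cocycles a, y - itN (fun _ => P.NC) a a c ∈ P.coboundaries (-a) := by
  obtain ⟨hy1, hy2⟩ := hy
  obtain ⟨x1, hx1, b, hb, hxb⟩ := point_surj h a ha hy1
  obtain ⟨x2, hx2, hxy2⟩ := h.pure.surj a _ hy2
  refine ⟨(x1, x2), ⟨hx1, hx2⟩, ?_⟩
  rw [itN_NC]
  refine ⟨⟨b, hb, hxb.symm⟩, ?_⟩
  show y.2 - (P.pure.N ^ a) x2 ∈ (⊥ : Submodule ℂ P.pure.V)
  rw [hxy2, sub_self]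
  exact zero_mem _

lemma coboundaries_le (h : P.IsGood q) (κ : ℤ) : P.coboundaries κ ≤ P.cocycles κ := by
  rintro c ⟨⟨a, ha, hac⟩, hc2⟩
  refine ⟨?_, ?_⟩
  · show c.1 ∈ P.kernel κ
    rw [← hac]
    exact d_mem_kernel h.isComplex ha
  · have : c.2 = 0 := (Submodule.mem_bot _).1 hc2
    show c.2 ∈ P.pure.gr κ
    rw [this]
    exact zero_mem _

lemma frobC_coboundaries (h : P.IsGood q) (κ : ℤ) (c : P.C) (hc : c ∈ P.coboundaries κ) :
    P.frobC c ∈ P.coboundaries κ := by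
  obtain ⟨⟨a, ha, hac⟩, hc2⟩ := hc
  refine ⟨⟨P.vert.frob a, h.isComplex.frob_gr _ _ ha, ?_⟩, ?_⟩
  · rw [h.isComplex.d_frob, hac]
    rfl
  · have : c.2 = 0 := (Submodule.mem_bot _).1 hc2
    show P.pure.frob c.2 ∈ (⊥ : Submodule ℂ P.pure.V)
    rw [this, map_zero]
    exact zero_mem _

lemma weil_page (h : P.IsGood q) (κ : ℤ) (α : ℂ) (c : P.C) (hc : c ∈ P.cocycles κ) (hne : c ≠ 0)
    (hα : P.frobC c = α • c) : IsWeilNumber q (P.k + 1 + κ) α := by
  obtain ⟨hc1, hc2⟩ := hc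
  have e1 : P.point.frob c.1 = α • c.1 := congrArg Prod.fst hα
  have e2 : P.pure.frob c.2 = α • c.2 := congrArg Prod.snd hα
  by_cases z1 : c.1 = 0
  · have z2 : c.2 ≠ 0 := fun z2 => hne (Prod.ext z1 z2)
    exact h.pure_weil κ α _ hc2 z2 e2
  · exact h.point_weil κ α _ hc1.1 z1 e1

end WeightPage

/-- The cohomology `H^1(C_{\bar K}, j_* S)` is mw pure of weight `k + 1`. -/
theorem ProductCohomology.isMWPure {q : ℕ} (P : ProductCohomology.{v} q) :
    IsMWPure q (P.k + 1) P.frob P.N :=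
  isMWPure_of_page (Z := P.page.cocycles) (B := P.page.coboundaries)
    (F' := fun _ => P.page.frobC) (N' := fun _ => P.page.NC)
    P.graded (fun w v x hx => P.compatible.sp_act w v x () hx) P.compatible.sp_N
    (WeightPage.coboundaries_le P.isGood) (WeightPage.frobC_coboundaries P.isGood)
    (fun a ha x hx hN => WeightPage.it_inj P.isGood a ha x hx hN)
    (fun a ha y hy => WeightPage.it_surj P.isGood a ha y hy)
    (fun κ α x hx hne hα => WeightPage.weil_page P.isGood κ α x hx hne hα)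

/-- The weight filtration is the monodromy filtration. -/
theorem ProductCohomology.isMonodromyFiltration {q : ℕ} (P : ProductCohomology.{v} q) :
    IsMonodromyFiltration P.N (fun a => P.W (P.k + 1 + a)) :=
  isMonodromyFiltration_of_page (Z := P.page.cocycles) (B := P.page.coboundaries)
    (N' := fun _ => P.page.NC) P.graded P.compatible.sp_N
    (fun a ha x hx hN => WeightPage.it_inj P.isGood a ha x hx hN)
    (fun a ha y hy => WeightPage.it_surj P.isGood a ha y hy)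

end Pool.Agent.Y143.Prod
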