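import Pool.Agent.Y143.Gal.Main
import Pool.Agent.Y143.Prod.Main

/-!
# The action of the full Weil group on potentially mw pure representations
-/

universe u v w

namespace Pool.Agent.Y143.Prod

open Module Pool.Agent.Y143.Par

section

variable {Ω : Type w} [Field Ω] [CharZero Ω] {W : Type} [Group W] {R : GradedRep.{v, w} Ω W}
  {deg : W → ℤ} {q e m : ℕ} {M : ℤ → Submodule Ω R.V} {U : Type v} [AddCommGroup U] [Module Ω U]
  {F T : Module.End Ω U} {s : ℤ}

lemma rep_act_fil (hq0 : q ≠ 0) (hR : R.IsRep deg q)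
    (hM : IsMonodromyFiltrationOn (R.gr m) R.N M) (g : W)
    {a : ℤ} {x : R.V} (hx : x ∈ M a) : R.act g x ∈ M a := by
  have hq : (q : Ω) ≠ 0 := Nat.cast_ne_zero.2 hq0
  exact hM.functorial hM (R.act g) (fun y hy => by
      have := hR.act_gr g m y hy
      rwa [add_zero] at this)
    (zpow_ne_zero (deg g) hq) (fun y _ => hR.N_act g y) a hx

lemma rep_act_pow_fil (hq0 : q ≠ 0) (hR : R.IsRep deg q)
    (hM : IsMonodromyFiltrationOn (R.gr m) R.N M)
    (g : W) {a : ℤ} {x : R.V} (hx : x ∈ M a) (k : ℕ) : (R.act g ^ k) x ∈ M a := by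
  induction k with
  | zero => simpa using hx
  | succ k ih =>
    rw [pow_succ', Module.End.mul_apply]
    exact rep_act_fil hq0 hR hM g ih

lemma rep_eig_pow (hq0 : q ≠ 0) (hR : R.IsRep deg q)
    (hM : IsMonodromyFiltrationOn (R.gr m) R.N M) (g : W)
    {a : ℤ} {x : R.V} {α : Ω} (h : R.act g x - α • x ∈ M a) (k : ℕ) :
    (R.act g ^ k) x - α ^ k • x ∈ M a := by
  induction k with
  | zero => simp
  | succ k ih =>
    have e1 : (R.act g ^ (k + 1)) x - α ^ (k + 1) • x =
        (R.act g ^ k) (R.act g x - α • x) + α • ((R.act g ^ k) x - α ^ k • x) := by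
      rw [pow_succ, Module.End.mul_apply, map_sub, map_smul, smul_sub, smul_smul, pow_succ']
      abel
    rw [e1]
    exact add_mem (rep_act_pow_fil hq0 hR hM g h k) (Submodule.smul_mem _ _ ih)

/-- Purity for the elements of `W` of degree at least zero. -/
theorem rep_pure_pos [IsAlgClosed Ω] (hq0 : q ≠ 0) (hR : R.IsRep deg q)
    (hM : IsMonodromyFiltrationOn (R.gr m) R.N M) (hS : R.IsSummand deg q e m F T)
    (hnil : ∃ r : ℕ, T ^ r = 0)
    (hpure : ∀ (β : Ω) (y : U), y ∈ monFil T s → y ∉ monFil T (s - 1) →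
      F y - β • y ∈ monFil T (s - 1) → IsWeilNumber (q ^ e) (s + m) β)
    {g : W} (hg : 0 ≤ deg g) {α : Ω} {x : R.V}
    (hx : x ∈ M s) (hx' : x ∉ M (s - 1)) (hα : R.act g x - α • x ∈ M (s - 1)) :
    IsWeilNumber q (deg g * (s + m)) α := by
  obtain ⟨hFT, ι, r, c, hc, ⟨hr1, hri⟩, hιN, hr2, hact0⟩ := hS
  have hM' := (isMonodromyFiltration_monFil hnil).on
  set M' := monFil T with hM'def
  have hfun : ∀ {a : ℤ} {z : R.V}, z ∈ M a → ι z ∈ M' a := by
    intro a z hz
    exact hM.functorial hM' ι (fun _ _ => trivial) hc (fun u _ => hιN u) a hz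
  have hback : ∀ {a : ℤ} {v : U}, v ∈ M' a → r v ∈ M a := by
    intro a v hv
    refine hM'.functorial hM r (fun u _ => hr1 u) (inv_ne_zero hc) (fun u _ => hr2 u) a hv
  set v := ι x with hv
  have hvM : v ∈ M' s := hfun hx
  have hvM' : v ∉ M' (s - 1) := by
    intro h1
    apply hx'
    have := hback h1
    rwa [hv, hri _ (hM.le _ hx)] at this
  obtain ⟨t, k, ht, htk, B, ⟨S, hSN, hB⟩, hact⟩ := hact0 g hg
  have hSM : ∀ {a : ℤ} {u : U}, u ∈ M' a → S u ∈ M' a := by
    intro a u hu
    exact hM'.functorial hM' S (fun _ _ => trivial) one_ne_zero (fun z _ => hSN z) a hu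
  have hFM : ∀ {a : ℤ} {u : U}, u ∈ M' a → F u ∈ M' a := by
    intro a u hu
    refine hM'.functorial hM' F (fun _ _ => trivial)
      (c := ((q ^ e : ℕ) : Ω)) ?_ (fun z _ => hFT z) a hu
    exact Nat.cast_ne_zero.2 (pow_ne_zero _ hq0)
  have hFkM : ∀ (l : ℕ) {a : ℤ} {u : U}, u ∈ M' a → (F ^ l) u ∈ M' a := by
    intro l
    induction l with
    | zero => intro a u hu; simpa using hu
    | succ l ih =>
      intro a u hu
      rw [pow_succ', Module.End.mul_apply]
      exact hFM (ih hu)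
  have h1 : B v = ι ((R.act g ^ t) x) := by
    rw [hact x, one_smul]
  rw [hB] at h1
  have h2 : ι ((R.act g ^ t) x) - α ^ t • v ∈ M' (s - 1) := by
    have h3 := hfun (rep_eig_pow hq0 hR hM g hα t)
    rwa [map_sub, map_smul] at h3
  have h3 : (F ^ k) v - (α ^ t) • v ∈ M' (s - 1) := by
    have h4 : (F ^ k) (T (S v)) ∈ M' (s - 1) := by
      apply hFkM
      exact hM'.mono (by omega) (hM'.map _ _ (hSM hvM))
    have h5 : (F ^ k) v - (α ^ t) • v =
        (ι ((R.act g ^ t) x) - α ^ t • v) - (F ^ k) (T (S v)) := by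
      rw [← h1, map_add]
      abel
    rw [h5]
    exact sub_mem h2 h4
  have hkey : IsWeilNumber q (t * (deg g * (s + m))) (α ^ t) := by
    rcases Nat.eq_zero_or_pos k with hk | hk
    · subst hk
      have h4 : α ^ t = 1 := by
        by_contra hne
        apply hvM'
        rw [pow_zero, Module.End.one_apply] at h3
        have h6 : (1 - α ^ t) • v ∈ M' (s - 1) := by
          rwa [sub_smul, one_smul]
        exact (Submodule.smul_mem_iff _ (sub_ne_zero.2 (Ne.symm hne))).1 h6
      have h5 : (t : ℤ) * (deg g * (s + m)) = 0 := by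
        rw [← mul_assoc, htk]
        simp
      rw [h4, h5]
      exact IsWeilNumber.one (Ω := Ω) q
    · obtain ⟨β, hβ, y', hy', hy'', hy3⟩ := exists_eigen_of_pow
        (F := F) (fun u hu => hFM hu) hk hvM hvM' h3
      have h4 := hpure β y' hy' hy'' hy3
      have h5 := (h4.of_pow_base).pow k
      rw [hβ] at h5
      have e1 : (t : ℤ) * (deg g * (s + m)) = k * (e * (s + m)) := by
        rw [← mul_assoc, htk]
        ring
      rw [e1]
      exact h5
  exact IsWeilNumber.of_pow ht hkey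

/-- **Purity for the full Weil group** of a representation which over a finite extension is a direct
summand of a mw pure representation. -/
theorem rep_pure [IsAlgClosed Ω] (hq0 : q ≠ 0) (hdeg : ∀ g h, deg (g * h) = deg g + deg h)
    (hR : R.IsRep deg q)
    (hM : IsMonodromyFiltrationOn (R.gr m) R.N M) (hS : R.IsSummand deg q e m F T)
    (hP : IsMWPure (q ^ e) m F T) (g : W) {α : Ω} (hα : IsEigenvalueOn M s (R.gr m) (R.act g) α) :
    IsWeilNumber q (deg g * (s + m)) α := by
  obtain ⟨x, -, hx, hx', hα⟩ := hα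
  obtain ⟨M'', hM'', -, hMP⟩ := hP
  have hnil : ∃ r : ℕ, T ^ r = 0 := by
    obtain ⟨b, hb⟩ := hM''.bot
    obtain ⟨t, ht⟩ := hM''.top
    refine ⟨(t - b).toNat, ?_⟩
    ext x
    have h1 := hM''.on.pow_map (t - b).toNat t x (by rw [ht]; trivial)
    have h2 : (T ^ (t - b).toNat) x ∈ M'' b := by
      apply hM''.mono _ h1
      have := Int.self_le_toNat (t - b)
      omega
    rw [hb, Submodule.mem_bot] at h2
    exact h2
  have he : M'' = monFil T := hM''.unique (isMonodromyFiltration_monFil hnil)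
  subst he
  have hpure : ∀ (β : Ω) (y : U), y ∈ monFil T s → y ∉ monFil T (s - 1) →
      F y - β • y ∈ monFil T (s - 1) → IsWeilNumber (q ^ e) (s + m) β :=
    fun β y hy hy' hβ => hMP s β y hy hy' hβ
  rcases le_total 0 (deg g) with hg | hg
  · exact rep_pure_pos hq0 hR hM hS hnil hpure hg hx hx' hα
  · have hdinv : deg g⁻¹ = -deg g := by
      have h1 := hdeg g g⁻¹
      have h2 := hdeg 1 1
      rw [one_mul] at h2
      rw [mul_inv_cancel] at h1
      omega
    have hinv : ∀ y : R.V, R.act g⁻¹ (R.act g y) = y := by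
      intro y
      rw [← hR.action.2, inv_mul_cancel, hR.action.1]
    have hα0 : α ≠ 0 := by
      rintro rfl
      apply hx'
      rw [zero_smul, sub_zero] at hα
      have := rep_act_fil hq0 hR hM g⁻¹ hα
      rwa [hinv] at this
    have h1 := rep_act_fil hq0 hR hM g⁻¹ hα
    rw [map_sub, map_smul, hinv] at h1
    have h2 : R.act g⁻¹ x - α⁻¹ • x ∈ M (s - 1) := by
      have h3 := Submodule.smul_mem _ (-α⁻¹) h1
      rw [smul_sub, smul_smul, neg_mul, inv_mul_cancel₀ hα0, neg_smul, neg_smul, one_smul] at h3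
      have e1 : R.act g⁻¹ x - α⁻¹ • x = -(α⁻¹ • x) - -R.act g⁻¹ x := by abel
      rw [e1]
      exact h3
    have h3 := rep_pure_pos hq0 hR hM hS hnil hpure (g := g⁻¹) (by rw [hdinv]; omega) hx hx' h2
    have h4 := h3.inv
    rw [inv_inv, hdinv] at h4
    rw [show deg g * (s + m) = -(-deg g * (s + m)) by ring]
    exact h4

/-- The monodromy filtration exists. -/
theorem rep_exists (hR : R.IsRep deg q) (hS : R.IsSummand deg q e m F T)
    (hP : IsMWPure (q ^ e) m F T) : ∃ M : ℤ → Submodule Ω R.V,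
      IsMonodromyFiltrationOn (R.gr m) R.N M := by
  obtain ⟨-, i, r, c, hc, ⟨-, hri⟩, hiN, -, -⟩ := hS
  obtain ⟨M'', hM'', -, -⟩ := hP
  have hnil : ∃ r : ℕ, T ^ r = 0 := by
    obtain ⟨b, hb⟩ := hM''.bot
    obtain ⟨t, ht⟩ := hM''.top
    refine ⟨(t - b).toNat, ?_⟩
    ext x
    have h1 := hM''.on.pow_map (t - b).toNat t x (by rw [ht]; trivial)
    have h2 : (T ^ (t - b).toNat) x ∈ M'' b := by
      apply hM''.mono _ h1
      have := Int.self_le_toNat (t - b)
      omega
    rw [hb, Submodule.mem_bot] at h2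
    exact h2
  obtain ⟨k, hk⟩ := hnil
  have hS : ∀ a ∈ R.gr m, R.N a ∈ R.gr m := fun a ha => by
    have := hR.N_gr m a ha
    rwa [add_zero] at this
  have hpow : ∀ (l : ℕ) (a : R.V), a ∈ R.gr m →
      (R.N ^ l) a ∈ R.gr m ∧ (T ^ l) (i a) = c ^ l • i ((R.N ^ l) a) := by
    intro l
    induction l with
    | zero => intro a ha; simpa using ha
    | succ l ih =>
      intro a ha
      obtain ⟨h1, h2⟩ := ih a ha
      rw [pow_succ', Module.End.mul_apply, pow_succ', Module.End.mul_apply]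
      refine ⟨hS _ h1, ?_⟩
      rw [h2, map_smul, hiN, smul_smul, ← pow_succ]
  apply exists_monodromyFiltrationOn hS
  refine ⟨k, fun a ha => ?_⟩
  obtain ⟨h1, h2⟩ := hpow k a ha
  rw [hk, LinearMap.zero_apply] at h2
  have h3 : i ((R.N ^ k) a) = 0 := (smul_eq_zero.1 h2.symm).resolve_left (pow_ne_zero _ hc)
  rw [← hri _ h1, h3, map_zero]

end

end Pool.Agent.Y143.Prod
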