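import Pool.Agent.Y143.Prod.PstDefs
import Pool.Agent.Y143.Prod.Weil
import Pool.Agent.Y143.Par.PhiN

/-!
# Descent to the maximal unramified field
-/

namespace Pool.Agent.Y143.Prod

universe v

open Module TensorProduct Pool.Agent.Y143.Par

variable {P₀ : Type} [Field P₀] [Algebra P₀ ℂ] {W : Type} [Group W] {E : PstModule.{v} P₀ W}
  {deg : W → ℤ} {q m e : ℕ}

lemma extend_gr (E : PstModule.{v} P₀ W) (m : ℤ) : (E.extend m).gr m = ⊤ := if_pos rfl

lemma extend_gr_ne (E : PstModule.{v} P₀ W) (m : ℤ) {j : ℤ} (h : j ≠ m) :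
    (E.extend m).gr j = ⊥ := if_neg h

lemma homog (E : PstModule.{v} P₀ W) (m : ℤ) (f : Module.End ℂ (E.extend m).V) :
    IsHomogeneous (E.extend m).gr (E.extend m).gr 0 f := by
  intro j a ha
  rw [add_zero]
  by_cases h : j = m
  · subst h
    rw [extend_gr]
    trivial
  · rw [extend_gr_ne E m h] at ha ⊢
    rw [(Submodule.mem_bot _).1 ha, map_zero]
    exact zero_mem _

lemma extend_isRep (hE : E.IsRep deg q) : (E.extend m).IsRep deg q := by
  refine ⟨⟨?_, ?_⟩, fun g => homog E m _, homog E m _, ?_, ?_⟩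
  · intro a
    change (E.act 1).baseChange ℂ a = a
    rw [hE.one, Module.End.one_eq_id, LinearMap.baseChange_id, LinearMap.id_apply]
  · intro g h a
    change (E.act (g * h)).baseChange ℂ a = (E.act g).baseChange ℂ ((E.act h).baseChange ℂ a)
    rw [hE.mul, LinearMap.baseChange_mul, Module.End.mul_apply]
  · intro g a
    change E.N.baseChange ℂ ((E.act g).baseChange ℂ a) =
      (q : ℂ) ^ deg g • (E.act g).baseChange ℂ (E.N.baseChange ℂ a)
    have h1 := congrArg (fun T : Module.End P₀ E.D => T.baseChange ℂ a) (hE.N_act g)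
    simp only [LinearMap.baseChange_mul, LinearMap.baseChange_smul, Module.End.mul_apply,
      LinearMap.smul_apply] at h1
    rw [h1, ← IsScalarTower.algebraMap_smul ℂ ((q : P₀) ^ deg g), map_zpow₀, map_natCast]
  · intro j hj
    apply extend_gr_ne
    omega

/-- Purity over `P₀` from mw purity over `ℂ`. -/
theorem pst_pure (hq0 : q ≠ 0) (hdeg : ∀ g h, deg (g * h) = deg g + deg h)
    (hE : E.IsRep deg q) {U : Type v} [AddCommGroup U] [Module ℂ U] {F T : Module.End ℂ U}
    (hS : (E.extend m).IsSummand deg q e m F T) (hP : IsMWPure (q ^ e) m F T) :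
    ∃ M : ℤ → Submodule P₀ E.D, IsMonodromyFiltration E.N M ∧
      (∀ (g : W) a x, x ∈ M a → E.act g x ∈ M a) ∧
      ∀ (s : ℤ) (g : W) (α : ℂ), IsEigenvalueOn (fun a => (M a).baseChange ℂ) s ⊤
        ((E.act g).baseChange ℂ) α → IsWeilNumber q (deg g * (s + m)) α := by
  have hR : (E.extend m).IsRep deg q := extend_isRep hE
  obtain ⟨M₁, hM₁⟩ := rep_exists hR hS hP
  -- nilpotency of `N`
  have hnil : ∃ r : ℕ, E.N ^ r = 0 := by
    obtain ⟨b, hb⟩ := hM₁.bot
    obtain ⟨t, ht⟩ := hM₁.top
    refine ⟨(t - b).toNat, nilpotent_of_baseChange ℂ ?_⟩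
    refine LinearMap.ext fun (x : (E.extend m).V) => ?_
    have h0 : x ∈ M₁ t := by
      rw [ht, extend_gr]
      trivial
    have h1 := hM₁.pow_map (t - b).toNat t x h0
    have h2 : ((E.extend m).N ^ (t - b).toNat) x ∈ M₁ b := by
      apply hM₁.mono _ h1
      have := Int.self_le_toNat (t - b)
      omega
    rw [hb, Submodule.mem_bot] at h2
    exact h2
  have hM := isMonodromyFiltration_monFil hnil
  have hMΩ : IsMonodromyFiltrationOn ((E.extend m).gr m) (E.extend m).N
      (fun a => (monFil E.N a).baseChange ℂ) := by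
    rw [extend_gr]
    exact (monBaseChange ℂ hM).on
  refine ⟨monFil E.N, hM, ?_, ?_⟩
  · intro g a x hx
    have hq : (q : P₀) ≠ 0 := by
      intro h0
      have : algebraMap P₀ ℂ (q : P₀) = 0 := by rw [h0, map_zero]
      rw [map_natCast] at this
      exact hq0 (by exact_mod_cast this)
    refine hM.on.functorial hM.on (E.act g) (fun _ _ => trivial) (zpow_ne_zero (deg g) hq)
      (fun y _ => ?_) a hx
    have h1 := congrArg (fun T : Module.End P₀ E.D => T y) (hE.N_act g)
    simpa only [Module.End.mul_apply, LinearMap.smul_apply] using h1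
  · intro s g α hα
    have h1 : IsEigenvalueOn (fun a => (monFil E.N a).baseChange ℂ) s ((E.extend m).gr m)
        ((E.extend m).act g) α := by
      rw [extend_gr]
      exact hα
    exact rep_pure hq0 hdeg hR hMΩ hS hP g h1

end Pool.Agent.Y143.Prod
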