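import Pool.Agent.Y143.Gal.Defs

/-!
# Representations of the Weil group over the maximal unramified field
-/

namespace Pool.Agent.Y143.Prod

universe v

open Module TensorProduct

/-- A finite-dimensional space `D` over `P₀` (the field of fractions of the Witt vectors of an algebraic
closure of the residue field) with an operator `N` and `P₀`-linear operators `act g` for `g` in the Weil
group `W` (for `D_pst` of a representation, `act g` is the composition of the action of `g` with a power
of the semilinear Frobenius `φ`). -/
structure PstModule (P₀ : Type) [Field P₀] (W : Type) where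
  D : Type v
  [addCommGroup : AddCommGroup D]
  [module : Module P₀ D]
  [finite : Module.Finite P₀ D]
  act : W → Module.End P₀ D
  N : Module.End P₀ D

attribute [instance] PstModule.addCommGroup PstModule.module PstModule.finite

/-- `act` is an action of the group `W` and `N g = q ^ (deg g) g N`. -/
structure PstModule.IsRep {P₀ : Type} [Field P₀] {W : Type} [Group W] (E : PstModule.{v} P₀ W)
    (deg : W → ℤ) (q : ℕ) : Prop where
  one : E.act 1 = 1
  mul : ∀ g h, E.act (g * h) = E.act g * E.act h
  N_act : ∀ g, E.N * E.act g = (q : P₀) ^ deg g • (E.act g * E.N)

open Classical in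
/-- The extension of scalars of `D` to `ℂ` (by an embedding of `P₀`), in degree `m`. -/
noncomputable def PstModule.extend {P₀ : Type} [Field P₀] [Algebra P₀ ℂ] {W : Type}
    (E : PstModule.{v} P₀ W) (m : ℤ) : GradedRep.{v, 0} ℂ W where
  V := ℂ ⊗[P₀] E.D
  gr := fun j => if j = m then ⊤ else ⊥
  act := fun g => (E.act g).baseChange ℂ
  N := E.N.baseChange ℂ

end Pool.Agent.Y143.Prod
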